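import Pool.Agent.N39.RW.UniE

set_option autoImplicit false

/-!
# `N = p + P₂` in all short windows around a positive proportion of the integers, for every large even `N`

For EVERY large even `N` and every scale `X` with `N / K₀ ≤ X ≤ N / 4` a positive proportion of the integers `n` in
`(X, 2 X]` is regular: ALL windows `(u, v]` around `n` with `K (log X) ^ 2 / σ(N) ≤ v - u ≤ n` contain the right order
of magnitude `σ(N) (v - u) / (log X) ^ 2` of the `m` for which one of `m`, `N - m` is prime and the other one a product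
of at most two primes. All constants except the lower bound for `X` are absolute. `σ(N)` is the variable part of the
singular series `𝔖(N) = 2 C₂ σ(N)` of Goldbach's problem.
-/

namespace Pool.Agent.Results.MP_73b532_nt.ChenInShortWindows

open Filter

/-- the variable part of the singular series: the product of `(p - 1) / (p - 2)` over the odd primes `p ∣ N` -/
noncomputable def sigma (N : ℕ) : ℝ := ∏ p ∈ N.primeFactors.filter (fun p => 2 < p), (((p : ℝ) - 1) / (p - 2))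

/-- `s = 0`: `m` is prime and `N - m` is a product of at most two primes; `s = 1`: `N - m` is prime and `m` is a
product of at most two primes; in both cases all prime factors of `m` and `N - m` are larger than `z`. -/
def Good (s : Fin 2) (z : ℝ) (N m : ℕ) : Prop :=
  (if s = 0 then m.Prime ∧ (N - m).primeFactorsList.length ≤ 2
    else (N - m).Prime ∧ m.primeFactorsList.length ≤ 2) ∧
  ∀ q : ℕ, q.Prime → q ∣ m ∨ q ∣ N - m → z < (q : ℝ)

/-- all prime factors of `m` and `N - m` are larger than `z` -/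
def Sieved (z : ℝ) (N m : ℕ) : Prop := ∀ q : ℕ, q.Prime → q ∣ m ∨ q ∣ N - m → z < (q : ℝ)

/-- `n` is regular: in ALL windows `(u, v]` with `u ≤ n ≤ v` and `K (log X) ^ 2 / σ(N) ≤ v - u ≤ n` there are at
least `c₁ σ(N) (v - u) / (log X) ^ 2` good `m`, and at most `c₂ σ(N) (v - u) / (log X) ^ 2` sieved `m`, at the level
`X ^ (1 / r)`. -/
def Regular (s : Fin 2) (r : ℕ) (c₁ c₂ K : ℝ) (X N n : ℕ) : Prop :=
  ∀ u v : ℕ, u ≤ n → n ≤ v → K * Real.log X ^ 2 / sigma N ≤ (v : ℝ) - u → (v : ℝ) - u ≤ n →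
    c₁ * sigma N * ((v : ℝ) - u) / Real.log X ^ 2 ≤
      ({m : ℕ | u < m ∧ m ≤ v ∧ Good s ((X : ℝ) ^ (1 / (r : ℝ))) N m}.ncard : ℝ) ∧
    ({m : ℕ | u < m ∧ m ≤ v ∧ Sieved ((X : ℝ) ^ (1 / (r : ℝ))) N m}.ncard : ℝ) ≤
      c₂ * sigma N * ((v : ℝ) - u) / Real.log X ^ 2

theorem gr_iff (N : ℕ) (z : ℝ) (m : ℕ) (hm : m ≤ N) :
    Pool.Agent.N39.RW.GR (Pool.Agent.N39.RW.fa (-1)) (Pool.Agent.N39.RW.fb N) z m ↔ Sieved z N m := by
  unfold Pool.Agent.N39.RW.GR Sieved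
  rw [Fin.forall_fin_two]
  simp only [Pool.Agent.N39.RW.fa, Pool.Agent.N39.RW.fb, Matrix.cons_val_zero, Matrix.cons_val_one, one_mul,
    add_zero, Int.natCast_dvd_natCast]
  have e : ((-1 : ℤ) * (m : ℤ) + (N : ℤ)) = ((N - m : ℕ) : ℤ) := by
    rw [Nat.cast_sub hm]; ring
  rw [e]
  simp only [Int.natCast_dvd_natCast]
  constructor
  · rintro ⟨h1, h2⟩ q hq hd
    rcases hd with hd | hd
    · exact h1 q hq hd
    · exact h2 q hq hd
  · intro h
    exact ⟨fun q hq hd => h q hq (Or.inl hd), fun q hq hd => h q hq (Or.inr hd)⟩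

theorem gc (s : Fin 2) (N r : ℕ) (z : ℝ) (m : ℕ) (hm : m ≤ N)
    (h : Pool.Agent.N39.RW.GC (Pool.Agent.N39.RW.fa (-1)) (Pool.Agent.N39.RW.fb N) s (1 - s) r z m) :
    Good s z N m := by
  obtain ⟨h1, h2, h3⟩ := h
  have h4 : Pool.Agent.N39.RW.GR (Pool.Agent.N39.RW.fa (-1)) (Pool.Agent.N39.RW.fb N) z m := fun l => (h3 l).2
  refine ⟨?_, (gr_iff N z m hm).1 h4⟩
  have e : ((-1 : ℤ) * (m : ℤ) + (N : ℤ)) = ((N - m : ℕ) : ℤ) := by
    rw [Nat.cast_sub hm]; ring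
  revert h1 h2
  fin_cases s
  · intro h1 h2
    simp only [Pool.Agent.N39.RW.fa, Pool.Agent.N39.RW.fb, Fin.zero_eta, Matrix.cons_val_zero,
      Matrix.cons_val_one, one_mul, add_zero, Int.natAbs_natCast, sub_zero] at h1 h2
    rw [e, Int.natAbs_natCast] at h2
    exact ⟨h1, h2⟩
  · intro h1 h2
    simp only [Pool.Agent.N39.RW.fa, Pool.Agent.N39.RW.fb, Fin.mk_one, Matrix.cons_val_zero,
      Matrix.cons_val_one, one_mul, add_zero, Int.natAbs_natCast, sub_self] at h1 h2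
    rw [e, Int.natAbs_natCast] at h1
    exact ⟨h1, h2⟩

theorem result : ∃ (r : ℕ) (c₁ c₂ K μ : ℝ), 1 ≤ r ∧ 0 < c₁ ∧ 0 < c₂ ∧ 0 < K ∧ 0 < μ ∧
    ∀ K₀ : ℕ, ∀ᶠ X : ℕ in atTop, ∀ (s : Fin 2) (N : ℕ), 2 ∣ N → 4 * X ≤ N → N ≤ K₀ * X →
      μ * X ≤ ({n : ℕ | X < n ∧ n ≤ 2 * X ∧ Regular s r c₁ c₂ K X N n}.ncard : ℝ) := by
  classical
  obtain ⟨r, hr, c₁, c₂, K, μ, hc₁, hc₂, hK, hμ, H⟩ := Pool.Agent.N39.RW.uniP
  refine ⟨r, c₁, c₂, K, μ, hr, hc₁, hc₂, hK, hμ, fun K₀ => ?_⟩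
  filter_upwards [H K₀, eventually_ge_atTop 1] with X hX hX1
  intro s N hN2 hN4 hNX
  refine (hX (-1) N s (1 - s) (Or.inr rfl) (by omega) hN2 hNX (by fin_cases s <;> decide)).trans ?_
  rw [← Set.ncard_coe_finset]
  refine Nat.cast_le.2 (Set.ncard_le_ncard ?_ ((Set.finite_Iic (2 * X)).subset fun n hn => hn.2.1))
  intro n hn
  rw [Finset.mem_coe, Finset.mem_filter, Finset.mem_Ioc] at hn
  obtain ⟨⟨hn1, hn2⟩, hn3⟩ := hn
  refine ⟨hn1, hn2, fun u v hu hv h1 h2 => ?_⟩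
  obtain ⟨h3, h4⟩ := hn3 u v hu hv h1 h2
  rw [Pool.Agent.N39.RW.cardIoc'] at h3 h4
  have hvN : v ≤ N := by
    have h5 : (v : ℝ) ≤ u + n := by linarith
    have h6 : v ≤ u + n := by exact_mod_cast h5
    omega
  constructor
  · refine h3.trans (Nat.cast_le.2 (Set.ncard_le_ncard ?_ ((Set.finite_Iic v).subset fun n hn => hn.2.1)))
    rintro m ⟨h5, h6, h7⟩
    exact ⟨h5, h6, gc s N r _ m (h6.trans hvN) h7⟩
  · refine le_trans (Nat.cast_le.2 (Set.ncard_le_ncard ?_ ((Set.finite_Iic v).subset fun n hn => hn.2.1))) h4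
    rintro m ⟨h5, h6, h7⟩
    exact ⟨h5, h6, (gr_iff N _ m (h6.trans hvN)).2 h7⟩

end Pool.Agent.Results.MP_73b532_nt.ChenInShortWindows
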