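import Pool.Agent.N837.LP.GenQ

set_option autoImplicit false

/-!
# No set of `A log n` prescribed summands serves all but a small proportion of the even numbers

For every `A ≥ 1` and `0 < η ≤ 1`, for every large `X` and EVERY set `P` of at most `A log X` natural
numbers (such as primes of `(√(2X), X]`, wherever they lie in this interval), for a positive proportion of
the `N ≡ r (mod Q)` in `(X, X + X ^ η]` none of the numbers `N - p`, `p ∈ P`, is prime.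
-/

namespace Pool.Agent.Results.MP_73b532_nt.PrescribedSummands

theorem result (δ : ℝ) (hδ : 0 < δ) : ∃ C : ℝ, 0 < C ∧ ∀ A η κ : ℝ, 1 ≤ A → 0 < η → η ≤ 1 →
    1 ≤ κ → ∃ X₀ : ℝ, ∀ X : ℝ, X₀ ≤ X → ∀ Q : ℕ, 0 < Q → (Q : ℝ) ≤ X ^ (η / 2) →
    (Q : ℝ) ≤ κ * Q.totient → ∀ P : Finset ℕ, (P.card : ℝ) ≤ A * Real.log X → ∀ r : ℤ,
    X ^ η / Q * Real.exp (-Real.exp (C * A * κ / η)) ≤
      (({N : ℕ | X < N ∧ (N : ℝ) ≤ X + X ^ η ∧ (Q : ℤ) ∣ N - r ∧
        ∀ p ∈ P, p < N → ∃ q : ℕ, q.Prime ∧ (q : ℝ) ≤ X ^ (η * δ) ∧ q ∣ N - p ∧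
          q < N - p}).ncard : ℝ) := by
  classical
  obtain ⟨C, hC, h⟩ := Pool.Agent.N837.LP.genQ δ hδ
  refine ⟨C, hC, fun A η κ hA hη hη1 hκ => ?_⟩
  obtain ⟨X₀, hX₀⟩ := h A η 2 κ hA hη hη1 (by norm_num) hκ
  refine ⟨max X₀ 4, fun X hX Q hQ hQX hQφ P hP r => ?_⟩
  have hX4 : 4 ≤ X := (le_max_right _ _).trans hX
  have hX0 : 0 < X := by linarith
  have hXη : X ^ η ≤ X := by
    calc X ^ η ≤ X ^ (1:ℝ) := Real.rpow_le_rpow_of_exponent_le (by linarith) hη1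
      _ = X := Real.rpow_one X
  have h1 := hX₀ X ((le_max_left _ _).trans hX) Q hQ hQX hQφ
    ((P.filter (fun p : ℕ => (p : ℝ) ≤ 2 * X)).image (fun d : ℕ => (d : ℤ)))
    (le_trans (by exact_mod_cast Finset.card_image_le.trans (Finset.card_filter_le _ _)) hP)
    (by
      intro b hb
      rw [Finset.mem_image] at hb
      obtain ⟨m, hm, rfl⟩ := hb
      rw [Finset.mem_filter] at hm
      push_cast
      rw [abs_of_nonneg (by positivity)]
      have e2 : X ^ (2:ℝ) = X * X := by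
        rw [show (2:ℝ) = ((2:ℕ):ℝ) by norm_num, Real.rpow_natCast]
        ring
      rw [e2]
      nlinarith [hm.2]) r
  refine h1.trans (Nat.cast_le.2 (Set.ncard_le_ncard ?_ ?_))
  · intro n hn
    obtain ⟨q1, q2, q3, q4⟩ := hn
    refine ⟨q1, q2, q3, fun p hp hpn => ?_⟩
    have hpR : (p : ℝ) < n := by exact_mod_cast hpn
    obtain ⟨q, p1, p2, p3, p4⟩ := q4 _ (Finset.mem_image_of_mem _
      (Finset.mem_filter.2 ⟨hp, by linarith⟩))
    have e1 : ((n - p : ℕ) : ℤ) = (n : ℤ) - (p : ℤ) := by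
      rw [Nat.cast_sub hpn.le]
    rw [← e1] at p3 p4
    rw [abs_of_nonneg (by positivity)] at p4
    exact ⟨q, p1, p2, by exact_mod_cast p3, by exact_mod_cast p4⟩
  · apply (Set.finite_Iic ⌊X + X ^ η⌋₊).subset
    intro a ha
    obtain ⟨_, h2, _⟩ := ha
    rw [Set.mem_Iic]
    exact Nat.le_floor h2

end Pool.Agent.Results.MP_73b532_nt.PrescribedSummands
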